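import Pool.Agent.MP27fa52.Core
import Pool.Agent.MP27fa52.Duality

open MeasureTheory Set Filter Topology

namespace Pool.Agent.Results.MP_27fa52_an.Incomplete

/-- A weight `φ : ℝ → [1,∞)`: measurable, submultiplicative, with `α₊ = α₋ = 0`. -/
structure IsWeight (φ : ℝ → ℝ) : Prop where
  measurable : Measurable φ
  one_le : ∀ t, 1 ≤ φ t
  submul : ∀ t τ, φ (t + τ) ≤ φ t * φ τ
  alpha_plus : Tendsto (fun t => Real.log (φ t) / t) atTop (𝓝 0)
  alpha_minus : Tendsto (fun t => Real.log (φ t) / t) atBot (𝓝 0)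

/-- `f ∈ L¹_φ(ℝ₊)`: measurable on `ℝ`, zero on `(-∞,0)`, `∫_0^∞ |f| φ < ∞`. -/
structure MemL1 (φ : ℝ → ℝ) (f : ℝ → ℂ) : Prop where
  measurable : Measurable f
  zero : ∀ t < 0, f t = 0
  integrable : IntegrableOn (fun t => ‖f t‖ * φ t) (Ioi 0)

/-- `g ∈ L^∞_φ(ℝ₊)`: measurable with `|g| ≤ C φ` on `[0,∞)`. -/
structure MemLinf (φ : ℝ → ℝ) (g : ℝ → ℂ) : Prop where
  measurable : Measurable g
  bounded : ∃ C : ℝ, ∀ t ≥ 0, ‖g t‖ ≤ C * φ t

/-- `f̂(z) = ∫_0^∞ f(t) e^{-itz} dt` -/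
noncomputable def hat (f : ℝ → ℂ) (z : ℂ) : ℂ :=
  ∫ t in Ioi (0:ℝ), f t * Complex.exp (-(Complex.I * t * z))

open MP27fa52 in
theorem dist_pos {T : ℕ → ℕ} (G : Good T) (s : Finset ℝ) (q : ℝ → ℂ) (hs : ∀ τ ∈ s, 0 < τ) :
    (1/10 : ℝ) ≤ ∫ t in Ioi (0:ℝ), ‖(Ioo (0:ℝ) (1/2)).indicator (fun _ => (1:ℂ)) t
      - ∑ τ ∈ s, q τ * (ff T (t - τ) : ℂ)‖ * phi T t := by
  have hpos := G.pos
  have hdvd := G.dvd
  have hhalf := G.eps_half
  obtain ⟨w1, w2, w3, w4, w5, _, _⟩ := weight_facts T hpos hdvd hhalf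
  obtain ⟨f1, f2, f3, f4, _⟩ := ff_facts T hpos G.big w1 w2 w3 w4 w5
  have hTR : ∀ n, (1:ℝ) ≤ T n := fun n => by exact_mod_cast hpos n
  set x : ℝ → ℂ := fun t => (Ioo (0:ℝ) (1/2)).indicator (fun _ => (1:ℂ)) t with hx
  set h : ℝ → ℂ := fun t => ∑ τ ∈ s, q τ * (ff T (t - τ) : ℂ) with hh
  have hxm : Measurable x := measurable_const.indicator measurableSet_Ioo
  have hhm : Measurable h := by
    rw [hh]
    refine Finset.measurable_fun_sum s fun τ _ => ?_
    exact (Complex.measurable_ofReal.comp (f1.comp (measurable_id.sub_const τ))).const_mul _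
  have hp0 : ∀ t, 0 ≤ phi T t := fun t => (Real.exp_pos _).le
  -- integrability
  have hxn : ∀ t ∈ Ioi (0:ℝ), ‖x t‖ * phi T t = (Ioo (0:ℝ) (1/2)).indicator (phi T) t := by
    intro t _
    rw [hx]
    by_cases ht : t ∈ Ioo (0:ℝ) (1/2)
    · simp only [indicator_of_mem ht, norm_one, one_mul]
    · simp only [indicator_of_notMem ht, norm_zero, zero_mul]
  have hphib : ∀ t ∈ Ioo (0:ℝ) (1/2), phi T t ≤ 6/5 := by
    intro t ht
    refine (w4 t).trans ?_
    rw [abs_of_pos ht.1]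
    have h1 : t / 4 ≤ 1/8 := by linarith [ht.2]
    have h2 : Real.exp (1/8) ≤ 6/5 := by
      have h4 := Real.exp_bound' (x := 1/8) (by norm_num) (by norm_num) (n := 2) (by norm_num)
      refine h4.trans ?_
      norm_num [Finset.sum_range_succ, Nat.factorial]
    exact (Real.exp_le_exp.2 h1).trans h2
  have hphiI : IntegrableOn (phi T) (Ioo (0:ℝ) (1/2)) := by
    refine Measure.integrableOn_of_bounded (M := 6/5) (by simp) w1.aestronglyMeasurable ?_
    rw [ae_restrict_iff' measurableSet_Ioo]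
    filter_upwards with t ht
    rw [Real.norm_of_nonneg (hp0 t)]
    exact hphib t ht
  have hxI : IntegrableOn (fun t => ‖x t‖ * phi T t) (Ioi 0) := by
    refine IntegrableOn.congr_fun ?_ (fun t ht => (hxn t ht).symm) measurableSet_Ioi
    rw [← integrable_indicator_iff measurableSet_Ioi, indicator_indicator,
      inter_eq_right.2 (fun t ht => ht.1), integrable_indicator_iff measurableSet_Ioo]
    exact hphiI
  have hxle : ∫ t in Ioi (0:ℝ), ‖x t‖ * phi T t ≤ 3/5 := by
    rw [setIntegral_congr_fun measurableSet_Ioi hxn,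
      setIntegral_indicator measurableSet_Ioo, inter_eq_right.2 (fun t ht => ht.1)]
    calc ∫ t in Ioo (0:ℝ) (1/2), phi T t ≤ ∫ t in Ioo (0:ℝ) (1/2), (6/5 : ℝ) :=
          setIntegral_mono_on hphiI (by simp) measurableSet_Ioo hphib
      _ = 3/5 := by simp; norm_num
  have hhI : IntegrableOn (fun t => ‖h t‖ * phi T t) (Ioi 0) := by
    have hsum : IntegrableOn (fun t => ∑ τ ∈ s, ‖q τ‖ * (|ff T (t - τ)| * phi T t)) (Ioi 0) :=
      integrable_finsetSum s fun τ hτ => (f4 τ (hs τ hτ)).const_mul _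
    refine Integrable.mono' hsum ?_ ?_
    · exact (hhm.norm.mul w1).aestronglyMeasurable
    · filter_upwards with t
      rw [norm_mul, norm_norm, Real.norm_of_nonneg (hp0 t), hh]
      simp only
      calc ‖∑ τ ∈ s, q τ * (ff T (t - τ) : ℂ)‖ * phi T t
          ≤ (∑ τ ∈ s, ‖q τ * (ff T (t - τ) : ℂ)‖) * phi T t :=
            mul_le_mul_of_nonneg_right (norm_sum_le _ _) (hp0 t)
        _ = ∑ τ ∈ s, ‖q τ‖ * (|ff T (t - τ)| * phi T t) := by
            rw [Finset.sum_mul]
            apply Finset.sum_congr rfl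
            intro τ _
            rw [norm_mul, Complex.norm_real, Real.norm_eq_abs]; ring
  have hdI : IntegrableOn (fun t => ‖x t - h t‖ * phi T t) (Ioi 0) := by
    refine Integrable.mono' (hxI.add hhI) ((hxm.sub hhm).norm.mul w1).aestronglyMeasurable ?_
    filter_upwards with t
    rw [norm_mul, norm_norm, Real.norm_of_nonneg (hp0 t)]
    simp only [Pi.add_apply]
    rw [← add_mul]
    exact mul_le_mul_of_nonneg_right (norm_sub_le _ _) (hp0 t)
  set N : ℝ := ∫ t in Ioi (0:ℝ), ‖x t - h t‖ * phi T t with hN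
  change (1/10 : ℝ) ≤ N
  have hN0 : 0 ≤ N := integral_nonneg fun t => mul_nonneg (norm_nonneg _) (hp0 t)
  have hhle : ∫ t in Ioi (0:ℝ), ‖h t‖ * phi T t ≤ 3/5 + N := by
    calc ∫ t in Ioi (0:ℝ), ‖h t‖ * phi T t
        ≤ ∫ t in Ioi (0:ℝ), (‖x t‖ * phi T t + ‖x t - h t‖ * phi T t) := by
          refine integral_mono hhI (hxI.add hdI) fun t => ?_
          simp only
          rw [← add_mul]
          refine mul_le_mul_of_nonneg_right ?_ (hp0 t)
          have := norm_sub_le (x t) (x t - h t)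
          rwa [sub_sub_cancel] at this
      _ = (∫ t in Ioi (0:ℝ), ‖x t‖ * phi T t) + N := integral_add hxI hdI
      _ ≤ 3/5 + N := by linarith
  have h1 := core G s hs q (3/5 + N) (by linarith) hhle
  -- the difference
  have Hd : Adm T (fun t => x t - h t) N :=
    ⟨(hxm.sub hhm).aestronglyMeasurable, hdI, le_rfl⟩
  have Hx : Adm T x (3/5) := ⟨hxm.aestronglyMeasurable, hxI, hxle⟩
  have Hh : Adm T h (3/5 + N) := ⟨hhm.aestronglyMeasurable, hhI, hhle⟩
  have he := eps_pos T hpos 0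
  have h0re : |(0:ℂ).re| ≤ eps T 0 / 2 := by simp; positivity
  have h0im : bot 0 < (0:ℂ).im := by simp [bot]
  have h2 := KK_bound T hpos hdvd hhalf Hd 0 0 h0re h0im
  have hE : ∀ t ∈ Ioo (0:ℝ) ((T 1 : ℝ) / 2), ‖E1 T 0 0 (zet T 0 0) t‖ ≤ phi T t := by
    intro t ht
    refine E1_le T hpos hdvd hhalf 0 0 _ h0re ?_ t ht
    have := cc_pos 0
    exact (zet_le T hpos hhalf 0 0 h0re h0im).trans (Real.exp_le_exp.2 (by linarith))
  have hsub : Ioo (0:ℝ) ((T 1 : ℝ) / 2) ⊆ Ioi 0 := fun t ht => ht.1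
  have hxE : IntegrableOn (fun t => x t * E1 T 0 0 (zet T 0 0) t) (Ioo (0:ℝ) ((T 1 : ℝ) / 2)) := by
    refine Integrable.mono' (hxI.mono_set hsub)
      (hxm.mul (measurable_E1 T 0 0 _)).aestronglyMeasurable ?_
    rw [ae_restrict_iff' measurableSet_Ioo]
    filter_upwards with t ht
    rw [norm_mul]
    exact mul_le_mul_of_nonneg_left (hE t ht) (norm_nonneg _)
  have hhE : IntegrableOn (fun t => h t * E1 T 0 0 (zet T 0 0) t) (Ioo (0:ℝ) ((T 1 : ℝ) / 2)) := by
    refine Integrable.mono' (hhI.mono_set hsub)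
      (hhm.mul (measurable_E1 T 0 0 _)).aestronglyMeasurable ?_
    rw [ae_restrict_iff' measurableSet_Ioo]
    filter_upwards with t ht
    rw [norm_mul]
    exact mul_le_mul_of_nonneg_left (hE t ht) (norm_nonneg _)
  have h3 : KK T 0 (fun t => x t - h t) 0 = KK T 0 x 0 - KK T 0 h 0 := by
    rw [KK_eq, KK_eq, KK_eq, ← integral_sub hxE hhE]
    congr 1
    ext t
    ring
  have h4 : KK T 0 x 0 = 1/2 := by
    rw [KK_eq]
    have hT8 : 8 * (T 0 : ℝ) ≤ T 1 := by exact_mod_cast G.big 0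
    have hT0 := hTR 0
    have hsub2 : Ioo (0:ℝ) (1/2) ⊆ Ioo (0:ℝ) ((T (0+1) : ℝ) / 2) := by
      apply Ioo_subset_Ioo le_rfl
      simp only [zero_add]
      linarith
    have : ∀ t ∈ Ioo (0:ℝ) ((T (0+1) : ℝ) / 2), x t * E1 T 0 0 (zet T 0 0) t
        = (Ioo (0:ℝ) (1/2)).indicator (fun _ => (1:ℂ)) t := by
      intro t _
      rw [hx]
      by_cases ht : t ∈ Ioo (0:ℝ) (1/2)
      · simp only [indicator_of_mem ht]
        unfold E1
        rw [mm_zero T hpos 0 t ht.1.le (by linarith [ht.2])]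
        simp
      · simp only [indicator_of_notMem ht, zero_mul]
    rw [setIntegral_congr_fun measurableSet_Ioo this, setIntegral_indicator measurableSet_Ioo,
      inter_eq_right.2 hsub2]
    simp
  rw [h3, h4] at h2
  have h5 : ‖(1/2 : ℂ)‖ ≤ ‖(1/2 : ℂ) - KK T 0 h 0‖ + ‖KK T 0 h 0‖ := by
    have := norm_add_le ((1/2 : ℂ) - KK T 0 h 0) (KK T 0 h 0)
    rwa [sub_add_cancel] at this
  have h6 : ‖(1/2 : ℂ)‖ = 1/2 := by
    rw [show (1/2 : ℂ) = ((1/2 : ℝ) : ℂ) by norm_num, Complex.norm_real]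
    norm_num
  rw [h6] at h5
  have h7 : ‖KK T 0 h 0‖ ≤ (3/5 + N) / 2 := h1
  linarith

theorem shift_integral (F : ℝ → ℝ) (hF : ∀ t < 0, F t = 0) (g : ℝ → ℂ) (τ : ℝ) (hτ : 0 < τ) :
    ∫ t in Ioi (0:ℝ), (F t : ℂ) * g (t + τ) = ∫ t in Ioi (0:ℝ), (F (t - τ) : ℂ) * g t := by
  have h1 : ∫ t in Ioi (0:ℝ), (F (t - τ) : ℂ) * g t = ∫ t in Ici τ, (F (t - τ) : ℂ) * g t := by
    apply setIntegral_eq_of_subset_of_forall_sdiff_eq_zero measurableSet_Ioi
      (fun t ht => lt_of_lt_of_le hτ ht)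
    intro t ht
    have : t < τ := by
      by_contra hcon
      exact ht.2 (not_lt.1 hcon)
    rw [hF (t - τ) (by linarith)]
    simp
  rw [h1, integral_Ici_eq_integral_Ioi, ← integral_indicator measurableSet_Ioi,
    ← integral_indicator measurableSet_Ioi,
    ← integral_sub_right_eq_self (fun t => (Ioi (0:ℝ)).indicator (fun t => (F t : ℂ) * g (t + τ)) t) τ]
  congr 1
  ext t
  by_cases ht : τ < t
  · rw [indicator_of_mem (show t - τ ∈ Ioi (0:ℝ) from sub_pos.2 ht),
      indicator_of_mem (show t ∈ Ioi τ from ht), sub_add_cancel]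
  · rw [indicator_of_notMem (show t - τ ∉ Ioi (0:ℝ) from fun h => ht (sub_pos.1 h)),
      indicator_of_notMem (show t ∉ Ioi τ from ht)]

theorem log_lim (c : ℝ) (hc : 0 < c) :
    Tendsto (fun y : ℝ => Real.log (c / (1 + |y|)) / |y|) atBot (𝓝 0) := by
  have h1 : Tendsto (fun x : ℝ => Real.log (1 + x) / x) atTop (𝓝 0) := by
    have h2 : Tendsto (fun x : ℝ => Real.log x / x) atTop (𝓝 0) := by
      have := Real.isLittleO_log_id_atTop.tendsto_div_nhds_zero
      exact this
    have h3 : Tendsto (fun x : ℝ => 1 + x) atTop atTop := tendsto_atTop_add_const_left _ _ tendsto_id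
    have h4 := h2.comp h3
    have h5 : Tendsto (fun x : ℝ => (1 + x) / x) atTop (𝓝 1) := by
      have h6 : Tendsto (fun x : ℝ => x⁻¹ + 1) atTop (𝓝 (0 + 1)) :=
        tendsto_inv_atTop_zero.add_const 1
      rw [zero_add] at h6
      refine h6.congr' ?_
      filter_upwards [eventually_gt_atTop 0] with x hx
      field_simp
    have h7 := h4.mul h5
    rw [zero_mul] at h7
    refine h7.congr' ?_
    filter_upwards [eventually_gt_atTop 0] with x hx
    simp only [Function.comp]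
    have : (1 + x) ≠ 0 := by positivity
    field_simp
  have h8 : Tendsto (fun x : ℝ => Real.log c / x) atTop (𝓝 0) :=
    tendsto_const_nhds.div_atTop tendsto_id
  have h9 : Tendsto (fun x : ℝ => Real.log (c / (1 + x)) / x) atTop (𝓝 0) := by
    have := h8.sub h1
    rw [sub_zero] at this
    refine this.congr' ?_
    filter_upwards [eventually_gt_atTop 0] with x hx
    rw [Real.log_div hc.ne' (by positivity), sub_div]
  exact h9.comp tendsto_abs_atBot_atTop

open MP27fa52 in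
/-- There are a weight `φ` with `α₊ = α₋ = 0`, a function `f ∈ L¹_φ(ℝ₊)` whose transform has no
zero in `Im z ≤ 0` and satisfies `limsup_{y → -∞} log|f̂(iy)| / |y| = 0`, and a `g ∈ L^∞_φ(ℝ₊)`,
not a.e. zero, with `∫_0^∞ f(t) g(t+τ) dt = 0` for all `τ > 0`. -/
theorem result :
    ∃ (φ : ℝ → ℝ) (f g : ℝ → ℂ), IsWeight φ ∧ MemL1 φ f ∧ MemLinf φ g ∧
      (∀ z : ℂ, z.im ≤ 0 → hat f z ≠ 0) ∧
      (Tendsto (fun y : ℝ => Real.log ‖hat f (Complex.I * y)‖ / |y|) atBot (𝓝 0) ∧
        limsup (fun y : ℝ => Real.log ‖hat f (Complex.I * y)‖ / |y|) atBot = 0) ∧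
      (∀ τ > 0, ∫ t in Ioi (0:ℝ), f t * g (t + τ) = 0) ∧
      ¬ (∀ᵐ t ∂(volume.restrict (Ici (0:ℝ))), g t = 0) := by
  obtain ⟨T, G⟩ := exists_good
  have hpos := G.pos
  have hdvd := G.dvd
  have hhalf := G.eps_half
  obtain ⟨w1, w2, w3, w4, w5, w6, w7⟩ := weight_facts T hpos hdvd hhalf
  obtain ⟨f1, f2, f3, f4, f5⟩ := ff_facts T hpos G.big w1 w2 w3 w4 w5
  have hp0 : ∀ t, 0 ≤ phi T t := fun t => (Real.exp_pos _).le
  set x : ℝ → ℂ := fun t => (Ioo (0:ℝ) (1/2)).indicator (fun _ => (1:ℂ)) t with hx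
  have hxI : IntegrableOn (fun t => ‖x t‖ * phi T t) (Ioi 0) := by
    have hb : IntegrableOn (fun t => ‖x t‖ * phi T t) (Ioo (0:ℝ) (1/2)) := by
      refine Measure.integrableOn_of_bounded (M := Real.exp (1/8)) (by simp)
        ((measurable_const.indicator measurableSet_Ioo).norm.mul w1).aestronglyMeasurable ?_
      rw [ae_restrict_iff' measurableSet_Ioo]
      filter_upwards with t ht
      rw [norm_mul, norm_norm, Real.norm_of_nonneg (hp0 t), hx]
      simp only [indicator_of_mem ht, norm_one, one_mul]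
      refine (w4 t).trans (Real.exp_le_exp.2 ?_)
      rw [abs_of_pos ht.1]
      linarith [ht.2]
    refine IntegrableOn.of_forall_sdiff_eq_zero hb measurableSet_Ioi ?_
    intro t ht
    rw [hx]
    simp only [indicator_of_notMem ht.2, norm_zero, zero_mul]
  obtain ⟨g, g1, ⟨C, g2⟩, g3, g4⟩ := duality (phi T) w1 w2 (fun τ t => (ff T (t - τ) : ℂ))
    (fun τ _ => Complex.measurable_ofReal.comp (f1.comp (measurable_id.sub_const τ)))
    (fun τ hτ => by
      refine (f4 τ hτ).congr_fun ?_ measurableSet_Ioi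
      intro t _
      simp only
      rw [Complex.norm_real, Real.norm_eq_abs])
    x (measurable_const.indicator measurableSet_Ioo) hxI (1/10) (by norm_num)
    (fun s q hs => dist_pos G s q hs)
  have hhat : ∀ z : ℂ, hat (fun t => (ff T t : ℂ)) z
      = ∫ t in Ioi (0:ℝ), (ff T t : ℂ) * Complex.exp (-((Complex.I * z) * t)) := by
    intro z
    unfold hat
    congr 1
    ext t
    congr 2
    ring
  refine ⟨phi T, fun t => (ff T t : ℂ), g, ⟨w1, w2, w3, w6, w7⟩, ⟨?_, ?_, ?_⟩, ⟨g1, C, ?_⟩, ?_, ?_,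
    ?_, ?_⟩
  · exact Complex.measurable_ofReal.comp f1
  · intro t ht
    simp only [f2 t ht, Complex.ofReal_zero]
  · refine f3.congr_fun ?_ measurableSet_Ioi
    intro t _
    simp only
    rw [Complex.norm_real, Real.norm_eq_abs]
  · intro t _
    exact g2 t
  · intro z hz h0
    have hre : 0 ≤ (Complex.I * z).re := by simp; linarith
    have := (f5 (Complex.I * z) hre).1
    rw [← hhat, h0, norm_zero] at this
    have hne : 0 < ‖1 + Complex.I * z‖ := by
      rw [norm_pos_iff]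
      intro h1
      have := congrArg Complex.re h1
      simp at this
      linarith
    have h3 : 0 < (1/2 : ℝ) / ‖1 + Complex.I * z‖ := by positivity
    linarith
  · have hT : Tendsto (fun y : ℝ => Real.log ‖hat (fun t => (ff T t : ℂ)) (Complex.I * y)‖ / |y|)
        atBot (𝓝 0) := by
      refine tendsto_of_tendsto_of_tendsto_of_le_of_le' (log_lim (1/2) (by norm_num))
        (log_lim (3/2) (by norm_num)) ?_ ?_
      · filter_upwards [eventually_lt_atBot 0] with y hy
        have hre : 0 ≤ (Complex.I * (Complex.I * y)).re := by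
          rw [← mul_assoc, Complex.I_mul_I]; simp; linarith
        have h2 := (f5 _ hre).1
        rw [← hhat] at h2
        have h3 : ‖1 + Complex.I * (Complex.I * (y:ℂ))‖ = 1 + |y| := by
          rw [← mul_assoc, Complex.I_mul_I, abs_of_neg hy]
          rw [show (1:ℂ) + -1 * (y:ℂ) = ((1 + -y : ℝ) : ℂ) by push_cast; ring, Complex.norm_real,
            Real.norm_of_nonneg (by linarith)]
        rw [h3] at h2
        refine div_le_div_of_nonneg_right (Real.log_le_log ?_ h2) (abs_nonneg _)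
        positivity
      · filter_upwards [eventually_lt_atBot 0] with y hy
        have hre : 0 ≤ (Complex.I * (Complex.I * y)).re := by
          rw [← mul_assoc, Complex.I_mul_I]; simp; linarith
        have h2 := (f5 _ hre).2
        have h2' := (f5 _ hre).1
        rw [← hhat] at h2 h2'
        have h3 : ‖1 + Complex.I * (Complex.I * (y:ℂ))‖ = 1 + |y| := by
          rw [← mul_assoc, Complex.I_mul_I, abs_of_neg hy]
          rw [show (1:ℂ) + -1 * (y:ℂ) = ((1 + -y : ℝ) : ℂ) by push_cast; ring, Complex.norm_real,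
            Real.norm_of_nonneg (by linarith)]
        rw [h3] at h2 h2'
        refine div_le_div_of_nonneg_right (Real.log_le_log ?_ h2) (abs_nonneg _)
        have : (0:ℝ) < 1/2 / (1 + |y|) := by positivity
        linarith
    exact ⟨hT, hT.limsup_eq⟩
  · intro τ hτ
    rw [shift_integral (ff T) f2 g τ hτ]
    exact g3 τ hτ
  · intro h0
    apply g4
    have h1 : ∀ᵐ t ∂(volume.restrict (Ioi (0:ℝ))), g t = 0 :=
      ae_mono (Measure.restrict_mono Ioi_subset_Ici_self le_rfl) h0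
    rw [← integral_zero ℝ ℂ (μ := volume.restrict (Ioi (0:ℝ)))]
    apply integral_congr_ae
    filter_upwards [h1] with t ht
    rw [ht, mul_zero]

end Pool.Agent.Results.MP_27fa52_an.Incomplete
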